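import Pool.Agent.Q218.HB.Stm4
import Pool.Agent.H4R2.AE.Conc

set_option autoImplicit false

/-! Project HB2 (helper218): jobs CON and NUM. -/

open MeasureTheory
open Pool.Agent.Q218.HB

namespace Pool.Agent.Q238.HB

theorem card_tor (d n : ℕ) [NeZero n] : (Fintype.card (Tor d n) : ℝ) = (n : ℝ) ^ d := by
  rw [Fintype.card_fun, ZMod.card, Fintype.card_fin]
  push_cast
  rfl

theorem tor_pos (d n : ℕ) [NeZero n] : 0 < (n : ℝ) ^ d := by
  have : 0 < n := Nat.pos_of_neZero n
  positivity

/-- the one-sided form of `conc` -/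
theorem conc1 {ι : Type} [Fintype ι] [DecidableEq ι] (ν : Measure ℝ) [IsProbabilityMeasure ν]
    (F : (ι → ℝ) → ℝ) (hF : Measurable F) (B : ℝ) (hB : ∀ ω, |F ω| ≤ B) (K : ℝ) (hK : 0 < K)
    (h : ∀ ω τ : ι → ℝ, ∑ z, (F (Function.update ω z (τ z)) - F ω) ^ 2 ≤ K ^ 2) (t m : ℝ)
    (hm : ∫ ω', F ω' ∂(iid ι ν) ≤ m) :
    iid ι ν {ω | m + t ≤ F ω} ≤ ENNReal.ofReal (4 * Real.exp (-(t / K))) := by
  have hp := iid_prob ι ν
  have h1 := Pool.Agent.H4R2.AE.Conc.conc ν F hF B hB K hK h t
  have h2 : iid ι ν {ω | m + t ≤ F ω} ≤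
      iid ι ν {ω | t ≤ |F ω - ∫ ω', F ω' ∂(iid ι ν)|} := by
    refine measure_mono fun ω hω => ?_
    have hω' : m + t ≤ F ω := hω
    show t ≤ |F ω - ∫ ω', F ω' ∂(iid ι ν)|
    exact le_trans (by linarith) (le_abs_self _)
  refine h2.trans ?_
  rw [← ENNReal.ofReal_toReal (measure_ne_top (iid ι ν) _)]
  refine ENNReal.ofReal_le_ofReal ?_
  rw [← neg_div]
  exact h1

theorem con : S_BDD → S_INV → S_OPB → S_CONT → ∀ (d n : ℕ) [NeZero n] (ν : Measure ℝ)
  [IsProbabilityMeasure ν] (f : ℝ → ℝ), Measurable f → ∀ E η t : ℝ, 0 < η → 0 < t →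
  iid (Tor d n) ν {V | (∫ W, HT E η (fun x => f (W x)) ∂(iid (Tor d n) ν)) + t ≤ HT E η fun x => f (V x)} ≤
    ENNReal.ofReal (4 * Real.exp (-(t * η ^ 2 / (8 * Real.sqrt ((n : ℝ) ^ d))))) := by
  intro hBDD hI hO hC d n _ ν _ f hf E η t hη ht
  have hz : 0 < (pt E η).im := by rw [pt_im]; exact hη
  have cb : CB fun V : Tor d n → ℝ => HT E η V := by
    exact CB.sum fun x => CB.sum fun y =>
      CB.pow (f := fun V => ‖G hop V (pt E η) x y - G hop (fun _ => 0) (pt E η) x y‖)
        ⟨((hC _ hop _ hop_symm hz.ne' x y).sub continuous_const).norm,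
        ⟨1 / (pt E η).im + 1 / (pt E η).im, fun V => (norm_sub_le _ _).trans (add_le_add
          (ent_le hO hop_symm hz V x y) (ent_le hO hop_symm hz _ x y))⟩, fun _ => norm_nonneg _⟩ 2
  obtain ⟨c1, ⟨B, hB⟩, c3⟩ := cb
  have hN := tor_pos d n
  have hs : 0 < Real.sqrt ((n : ℝ) ^ d) := Real.sqrt_pos.2 hN
  have hmF : Measurable fun V : Tor d n → ℝ => HT E η fun x => f (V x) := by
    refine c1.measurable.comp ?_
    exact measurable_pi_lambda _ fun x => hf.comp (measurable_pi_apply x)
  have key := conc1 (ι := Tor d n) ν (fun V => HT E η fun x => f (V x)) hmF B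
    (fun V => by
      have h3 := c3 (fun x => f (V x))
      simp only at h3
      rw [abs_of_nonneg h3]; exact hB _)
    (8 * Real.sqrt ((n : ℝ) ^ d) / η ^ 2) (by positivity) (fun V τ => by
      have e : ∀ z : Tor d n, (fun x => f (Function.update V z (τ z) x)) =
          Function.update (fun x => f (V x)) z (f (τ z)) := by
        intro z
        funext x
        by_cases hx : x = z
        · subst hx; simp
        · rw [Function.update_of_ne hx, Function.update_of_ne hx]
      have hb : ∀ z : Tor d n, (HT E η (fun x => f (Function.update V z (τ z) x)) -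
          HT E η fun x => f (V x)) ^ 2 ≤ (8 / η ^ 2) ^ 2 := by
        intro z
        rw [e z, ← sq_abs]
        exact pow_le_pow_left₀ (abs_nonneg _) (hBDD hI hO d n E η hη _ z _) 2
      refine (Finset.sum_le_sum fun z _ => hb z).trans ?_
      rw [Finset.sum_const, Finset.card_univ, nsmul_eq_mul, card_tor, div_pow, div_pow, mul_pow,
        Real.sq_sqrt hN.le]
      exact le_of_eq (by ring)) t _ le_rfl
  refine key.trans (le_of_eq ?_)
  congr 4
  field_simp

theorem con' : S_CON := con

open Classical in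
theorem num : S_NUM := by
  intro d n _ ν _ S q t hS hq hνS ht
  have hN := tor_pos d n
  have hs : 0 < Real.sqrt ((n : ℝ) ^ d) := Real.sqrt_pos.2 hN
  set F : (Tor d n → ℝ) → ℝ := fun V => ∑ x, S.indicator (fun _ => (1 : ℝ)) (V x) with hF
  have hFc : ∀ V, ((Finset.univ.filter fun x => V x ∈ S).card : ℝ) = F V := by
    intro V
    rw [Finset.card_filter]
    push_cast
    refine Finset.sum_congr rfl fun x _ => ?_
    rw [Set.indicator_apply]
  have him : Measurable (S.indicator fun _ : ℝ => (1 : ℝ)) := measurable_const.indicator hS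
  have hmF : Measurable F := by
    refine Finset.measurable_sum _ fun x _ => ?_
    exact him.comp (measurable_pi_apply x)
  have h01 : ∀ s : ℝ, 0 ≤ S.indicator (fun _ => (1 : ℝ)) s ∧ S.indicator (fun _ => (1 : ℝ)) s ≤ 1 := by
    intro s
    rw [Set.indicator_apply]
    split_ifs
    · exact ⟨zero_le_one, le_rfl⟩
    · exact ⟨le_rfl, zero_le_one⟩
  have hmean : ∫ V, F V ∂(iid (Tor d n) ν) ≤ q * (n : ℝ) ^ d := by
    have hp := iid_prob (Tor d n) ν
    have h1 : ∀ x : Tor d n, ∫ V : Tor d n → ℝ, S.indicator (fun _ => (1 : ℝ)) (V x)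
        ∂(iid (Tor d n) ν) = ν.real S := by
      intro x
      have hmp : MeasurePreserving (Function.eval x) (iid (Tor d n) ν) ν :=
        measurePreserving_eval (fun _ : Tor d n => ν) x
      have := Pool.Agent.H4R2.AE.Conc.int_mp hmp him
      rw [show (∫ V : Tor d n → ℝ, S.indicator (fun _ => (1 : ℝ)) (V x) ∂(iid (Tor d n) ν)) =
        ∫ V : Tor d n → ℝ, S.indicator (fun _ => (1 : ℝ)) (Function.eval x V)
          ∂(iid (Tor d n) ν) from rfl, this, integral_indicator_const _ hS]
      simp
    have hint : ∀ x : Tor d n, Integrable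
        (fun V : Tor d n → ℝ => S.indicator (fun _ => (1 : ℝ)) (V x)) (iid (Tor d n) ν) := by
      intro x
      refine Integrable.of_bound (him.comp (measurable_pi_apply x)).aestronglyMeasurable 1
        (Filter.Eventually.of_forall fun V => ?_)
      rw [Real.norm_eq_abs, abs_of_nonneg (h01 _).1]
      exact (h01 _).2
    rw [hF, integral_finsetSum _ fun x _ => hint x]
    simp only [h1]
    rw [Finset.sum_const, Finset.card_univ, nsmul_eq_mul, card_tor, mul_comm]
    refine mul_le_mul_of_nonneg_right ?_ hN.le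
    exact ENNReal.toReal_le_of_le_ofReal hq hνS
  have key := conc1 (ι := Tor d n) ν F hmF ((n : ℝ) ^ d) (fun V => by
      have h0 : 0 ≤ F V := Finset.sum_nonneg fun x _ => (h01 _).1
      rw [abs_of_nonneg h0]
      refine (Finset.sum_le_sum fun x _ => (h01 (V x)).2).trans (le_of_eq ?_)
      rw [Finset.sum_const, Finset.card_univ, nsmul_eq_mul, card_tor, mul_one])
    (Real.sqrt ((n : ℝ) ^ d)) hs (fun V τ => by
      have hb : ∀ z : Tor d n, (F (Function.update V z (τ z)) - F V) ^ 2 ≤ 1 := by
        intro z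
        have e : F (Function.update V z (τ z)) - F V =
            S.indicator (fun _ => (1 : ℝ)) (τ z) - S.indicator (fun _ => (1 : ℝ)) (V z) := by
          rw [hF]
          simp only
          rw [← Finset.sum_sub_distrib, Finset.sum_eq_single z]
          · rw [Function.update_self]
          · intro b _ hb
            rw [Function.update_of_ne hb, sub_self]
          · intro h; exact absurd (Finset.mem_univ z) h
        rw [e]
        have h1 := h01 (τ z)
        have h2 := h01 (V z)
        have h3 : |S.indicator (fun _ => (1 : ℝ)) (τ z) - S.indicator (fun _ => (1 : ℝ)) (V z)| ≤ 1 := by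
          rw [abs_le]; constructor <;> linarith
        rw [← sq_abs]
        exact pow_le_one₀ (abs_nonneg _) h3
      refine (Finset.sum_le_sum fun z _ => hb z).trans ?_
      rw [Finset.sum_const, Finset.card_univ, nsmul_eq_mul, card_tor, mul_one,
        Real.sq_sqrt hN.le]) t _ hmean
  refine le_trans (le_of_eq ?_) key
  congr 1
  ext V
  simp only [Set.mem_ofPred_eq]
  rw [hFc V]

end Pool.Agent.Q238.HB
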